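import Pool.Agent.TH943.PT.Dk

/-!
The number of the primes whose composition with a Dickson polynomial of prime degree is irreducible.
-/

set_option autoImplicit false
set_option maxHeartbeats 1000000

open Polynomial

namespace Pool.Agent.TH943.PT

/-- the composition is irreducible when the equation is -/
theorem irreducible_comp_of {k : Type} [Field k] {L : Type} [Field L] [Algebra k L]
    {f : k[X]} (hf : f.Monic) (hf0 : 0 < f.natDegree) {u : L} (hint : IsIntegral k u)
    (h : Irreducible (f.map (algebraMap k L) - C u)) : Irreducible ((minpoly k u).comp f) := by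
  refine irreducible_comp (minpoly.monic hint) hf (minpoly.irreducible hint) ?_
  intro E _ _ x hx
  have hxint : IsIntegral k x := by
    by_contra hc
    rw [minpoly.eq_zero hc] at hx
    exact (minpoly.ne_zero hint) hx.symm
  let φ : IntermediateField.adjoin k {x} →ₐ[k] L :=
    (IntermediateField.adjoin.powerBasis hxint).lift u (by
      rw [IntermediateField.adjoin.powerBasis_gen, IntermediateField.minpoly_gen, hx,
        minpoly.aeval])
  have hφ : φ (IntermediateField.AdjoinSimple.gen k x) = u := by
    have := (IntermediateField.adjoin.powerBasis hxint).lift_gen u (by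
      rw [IntermediateField.adjoin.powerBasis_gen, IntermediateField.minpoly_gen, hx,
        minpoly.aeval])
    exact (congrArg φ (IntermediateField.adjoin.powerBasis_gen hxint).symm).trans this
  refine Polynomial.Monic.irreducible_of_irreducible_map (φ : _ →+* L) _ ?_ ?_
  · refine (hf.map _).sub_of_left (lt_of_le_of_lt degree_C_le ?_)
    rw [← natDegree_pos_iff_degree_pos, natDegree_map]
    exact hf0
  · have h1 : (f.map (algebraMap k (IntermediateField.adjoin k {x})) -
        C (IntermediateField.AdjoinSimple.gen k x)).map (φ : _ →+* L) =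
        f.map (algebraMap k L) - C u := by
      rw [Polynomial.map_sub, map_C, Polynomial.map_map]
      congr 2
      · exact φ.comp_algebraMap
    rw [h1]
    exact h

/-- the number of the inert primes of the Dickson polynomial -/
theorem dick_inert {k : Type} [Field k] [Finite k] {ℓ : ℕ} (hℓ : ℓ.Prime) (h2 : ℓ ≠ 2) {a : k}
    (ha : a ≠ 0) (hd : ℓ ∣ Nat.card k ^ 2 - 1) {N : ℕ} (hN : 0 < N) :
    (ℓ - 1) * (Nat.card k ^ N - 1) ≤ 2 * ℓ *
      (N * {P : {P : k[X] // P.Monic ∧ Irreducible P} | P.1.natDegree = N ∧
        Irreducible (P.1.comp (dickson 1 a ℓ))}.ncard + ∑ d ∈ N.properDivisors, Nat.card k ^ d) := by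
  classical
  obtain ⟨p, hp⟩ := CharP.exists k
  have : Fact (Nat.Prime p) := ⟨CharP.char_is_prime k p⟩
  have : NeZero N := ⟨hN.ne'⟩
  let L := FiniteField.Extension k p N
  have hfin : Module.finrank k L = N := FiniteField.finrank_extension k p N
  have := Fintype.ofFinite L
  have hcard : Fintype.card L = Nat.card k ^ N := by
    rw [Fintype.card_eq_nat_card, FiniteField.natCard_extension]
  have ha' : algebraMap k L a ≠ 0 := by
    rw [Ne, FaithfulSMul.algebraMap_eq_zero_iff]
    exact ha
  have hd' : ℓ ∣ Fintype.card L ^ 2 - 1 := by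
    rw [hcard, ← pow_mul, mul_comm, pow_mul]
    exact hd.trans (Nat.sub_one_dvd_pow_sub_one _ _)
  have h1 := irr_count hℓ h2 ha' hd'
  rw [hcard] at h1
  set M : Finset L := Finset.univ.filter fun u : L =>
    Irreducible (dickson 1 (algebraMap k L a) ℓ - C u) with hM
  have hc := count hfin (fun P => Irreducible (P.comp (dickson 1 a ℓ)))
  rw [hc]
  have hs := ncard_small (k := k) (L := L) hfin
  set U : Set L := {u : L | (minpoly k u).natDegree = N ∧
    Irreducible ((minpoly k u).comp (dickson 1 a ℓ))} with hUU
  have hMU : (M : Set L) ⊆ U ∪ {u : L | (minpoly k u).natDegree ≠ N} := by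
    intro u hu
    by_cases h : (minpoly k u).natDegree = N
    · left
      refine ⟨h, ?_⟩
      have : Module.Finite k L := Module.Finite.of_finite
      apply irreducible_comp_of (dick_monic a hℓ.pos)
        (by rw [dick_natDegree a hℓ.pos]; exact hℓ.pos) (Algebra.IsIntegral.isIntegral u)
      rw [map_dickson]
      exact (Finset.mem_filter.1 (Finset.mem_coe.1 hu)).2
    · exact Or.inr h
  have h6 := Set.ncard_le_ncard hMU (Set.toFinite _)
  have h7 := Set.ncard_union_le U {u : L | (minpoly k u).natDegree ≠ N}
  rw [Set.ncard_coe_finset] at h6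
  refine h1.trans (Nat.mul_le_mul_left _ ?_)
  omega

end Pool.Agent.TH943.PT
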