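import Mathlib.NumberTheory.LegendreSymbol.QuadraticChar.Basic
import Mathlib.Tactic

/-!
The number of values which a cubic polynomial does not take on a finite field.
-/

set_option autoImplicit false
set_option maxHeartbeats 1000000

open Finset

namespace Pool.Agent.TH943.PT

variable {F : Type} [Field F] [Fintype F] [DecidableEq F]

/-- the cubic polynomial -/
def cu (a b c x : F) : F := x ^ 3 + a * x ^ 2 + b * x + c

/-- the conic attached to the cubic polynomial -/
def cg (a b x y : F) : F := x ^ 2 + x * y + y ^ 2 + a * (x + y) + b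

omit [Fintype F] [DecidableEq F] in
theorem cu_sub (a b c x y : F) : cu a b c x - cu a b c y = (x - y) * cg a b x y := by
  unfold cu cg
  ring

omit [Fintype F] [DecidableEq F] in
theorem cg_third (a b x y : F) : cg a b x (-a - x - y) = cg a b x y := by
  unfold cg
  ring

omit [Fintype F] [DecidableEq F] in
theorem cg_two {a b x y z : F} (h1 : cg a b x y = 0) (h2 : cg a b x z = 0) (h : y ≠ z) :
    x + y + z = -a := by
  have h3 : (y - z) * (x + y + z + a) = 0 := by
    have : (y - z) * (x + y + z + a) = cg a b x y - cg a b x z := by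
      unfold cg
      ring
    rw [this, h1, h2, sub_zero]
  rcases mul_eq_zero.1 h3 with h4 | h4
  · exact absurd (sub_eq_zero.1 h4) h
  · linear_combination h4

omit [Fintype F] [DecidableEq F] in
theorem cg_comm (a b x y : F) : cg a b x y = cg a b y x := by
  unfold cg
  ring

/-- the points over `u` on the line -/
def rt (a b c u : F) : Finset F := univ.filter fun x => cu a b c x = u

/-- the points over `u` on the conic -/
def cn (a b c u : F) : Finset (F × F) :=
  univ.filter fun z => cu a b c z.1 = u ∧ cg a b z.1 z.2 = 0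

theorem card_cn (a b c u : F) :
    (cn a b c u).card = ∑ x ∈ rt a b c u, (univ.filter fun y => cg a b x y = 0).card := by
  rw [← card_sigma]
  refine card_bij' (fun z _ => ⟨z.1, z.2⟩) (fun z _ => (z.1, z.2)) ?_ ?_ ?_ ?_
  · rintro ⟨x, y⟩ h
    simpa [cn, rt] using h
  · rintro ⟨x, y⟩ h
    simpa [cn, rt] using h
  · intro z _
    rfl
  · intro z _
    rfl

theorem card_fib {a b c u x : F} (hx : cu a b c x = u) :
    (univ.filter fun y => cg a b x y = 0).card + 1 =
      (rt a b c u).card + if cg a b x x = 0 then 1 else 0 := by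
  have h : ∀ y, y ≠ x → (cg a b x y = 0 ↔ cu a b c y = u) := by
    intro y hy
    have h1 := cu_sub a b c x y
    rw [hx] at h1
    constructor
    · intro h2
      rw [h2, mul_zero] at h1
      exact (sub_eq_zero.1 h1).symm
    · intro h2
      rw [h2, sub_self] at h1
      rcases mul_eq_zero.1 h1.symm with h3 | h3
      · exact absurd (sub_eq_zero.1 h3).symm hy
      · exact h3
  have h1 : (univ.filter fun y => cg a b x y = 0).erase x = (rt a b c u).erase x := by
    ext y
    simp only [mem_erase, mem_filter, mem_univ, true_and, rt]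
    constructor
    · rintro ⟨h2, h3⟩
      exact ⟨h2, (h y h2).1 h3⟩
    · rintro ⟨h2, h3⟩
      exact ⟨h2, (h y h2).2 h3⟩
  have h2 : x ∈ rt a b c u := by simp [rt, hx]
  have h3 := congrArg card h1
  rw [card_erase_of_mem h2] at h3
  have h4 : 0 < (rt a b c u).card := card_pos.2 ⟨x, h2⟩
  split_ifs with h5
  · rw [card_erase_of_mem (by simp [h5])] at h3
    have h6 : 0 < (univ.filter fun y => cg a b x y = 0).card := card_pos.2 ⟨x, by simp [h5]⟩
    omega
  · rw [erase_eq_of_notMem (by simp [h5])] at h3
    omega

omit [Fintype F] [DecidableEq F] in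
/-- the conic has no point `(x, x, x)` -/
theorem no_triple (h3 : (3 : F) ≠ 0) {a b : F} (hab : a ^ 2 ≠ 3 * b) {x : F}
    (h : cg a b x x = 0) : -a - x - x ≠ x := by
  intro h1
  apply hab
  have h2 : a = -3 * x := by linear_combination -h1
  unfold cg at h
  rw [h2] at h ⊢
  linear_combination -3 * h

theorem card_cn_eq (h3 : (3 : F) ≠ 0) {a b : F} (hab : a ^ 2 ≠ 3 * b) (c u : F) :
    (cn a b c u).card + 3 = 3 * (rt a b c u).card + if rt a b c u = ∅ then 3 else 0 := by
  have hroot : ∀ x y, cu a b c x = u → cg a b x y = 0 → cu a b c y = u := by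
    intro x y hx hy
    have h1 := cu_sub a b c x y
    rw [hx, hy, mul_zero] at h1
    exact (sub_eq_zero.1 h1).symm
  have hcg : ∀ x y, cu a b c x = u → cu a b c y = u → x ≠ y → cg a b x y = 0 := by
    intro x y hx hy hxy
    have h1 := cu_sub a b c x y
    rw [hx, hy, sub_self] at h1
    rcases mul_eq_zero.1 h1.symm with h4 | h4
    · exact absurd (sub_eq_zero.1 h4) hxy
    · exact h4
  -- the number of pairs
  have key : (cn a b c u).card + (rt a b c u).card =
      (rt a b c u).card * (rt a b c u).card +
        ((rt a b c u).filter fun x => cg a b x x = 0).card := by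
    rw [card_cn, card_eq_sum_ones (rt a b c u), ← sum_add_distrib]
    rw [← card_eq_sum_ones, card_filter]
    have : ∑ x ∈ rt a b c u, ((univ.filter fun y => cg a b x y = 0).card + 1) =
        ∑ x ∈ rt a b c u, ((rt a b c u).card + if cg a b x x = 0 then 1 else 0) :=
      sum_congr rfl fun x hx => card_fib (by simpa [rt] using hx)
    rw [this, sum_add_distrib, sum_const, smul_eq_mul]
  have hmem : ∀ x, x ∈ rt a b c u ↔ cu a b c x = u := by
    intro x
    simp [rt]
  -- at most three roots
  have hle : (rt a b c u).card ≤ 3 := by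
    by_contra hlt
    push Not at hlt
    obtain ⟨s, hs, hs4⟩ := exists_subset_card_eq (show 4 ≤ (rt a b c u).card by omega)
    obtain ⟨x, y, z, w, hxy, hxz, hxw, hyz, hyw, hzw, hsw⟩ := card_eq_four.1 hs4
    have hx := (hmem x).1 (hs (by simp [hsw]))
    have hy := (hmem y).1 (hs (by simp [hsw]))
    have hz := (hmem z).1 (hs (by simp [hsw]))
    have hw := (hmem w).1 (hs (by simp [hsw]))
    have h1 := cg_two (hcg x y hx hy hxy) (hcg x z hx hz hxz) hyz
    have h2 := cg_two (hcg x y hx hy hxy) (hcg x w hx hw hxw) hyw
    apply hzw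
    linear_combination h1 - h2
  have h0 : (rt a b c u).card = 0 ∨ (rt a b c u).card = 1 ∨ (rt a b c u).card = 2 ∨
    (rt a b c u).card = 3 := by omega
  rcases h0 with h0 | h0 | h0 | h0
  · rw [h0] at key ⊢
    rw [card_eq_zero] at h0
    rw [if_pos h0]
    rw [h0, filter_empty, card_empty] at key
    omega
  · have hne : rt a b c u ≠ ∅ := by
      intro h
      rw [h, card_empty] at h0
      omega
    rw [if_neg hne]
    obtain ⟨x, hx⟩ := card_eq_one.1 h0
    have hx1 : cu a b c x = u := (hmem x).1 (by simp [hx])
    have h1 : ((rt a b c u).filter fun x => cg a b x x = 0) = ∅ := by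
      rw [hx, filter_singleton, if_neg]
      intro h4
      have h5 := no_triple h3 hab h4
      have h6 : -a - x - x ∈ rt a b c u := (hmem _).2 (hroot x _ hx1 (by rw [cg_third]; exact h4))
      rw [hx, mem_singleton] at h6
      exact h5 h6
    rw [h1, card_empty, h0] at key
    omega
  · have hne : rt a b c u ≠ ∅ := by
      intro h
      rw [h, card_empty] at h0
      omega
    rw [if_neg hne]
    obtain ⟨x, y, hxy, hx⟩ := card_eq_two.1 h0
    have hx1 : cu a b c x = u := (hmem x).1 (by simp [hx])
    have hy1 : cu a b c y = u := (hmem y).1 (by simp [hx])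
    have hxy0 := hcg x y hx1 hy1 hxy
    have h6 : -a - x - y ∈ rt a b c u := (hmem _).2 (hroot x _ hx1 (by rw [cg_third]; exact hxy0))
    have h7 : ((rt a b c u).filter fun x => cg a b x x = 0).card = 1 := by
      rw [hx, mem_insert, mem_singleton] at h6
      rw [hx, filter_insert, filter_singleton]
      rcases h6 with h6 | h6
      · have h8 : cg a b x x = 0 := by
          rw [← cg_third, ← cg_third] at *
          have : cg a b x (-a - x - y) = 0 := by rw [cg_third]; simpa [cg_third] using hxy0
          rw [h6] at this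
          simpa [cg_third] using this
        have h9 : cg a b y y ≠ 0 := by
          intro h10
          have h11 := cg_two (a := a) (b := b) (x := y) (y := x) (z := y)
            (by rw [cg_comm]; exact hcg x y hx1 hy1 hxy) h10 hxy
          apply hxy
          linear_combination -h6 - h11
        rw [if_pos h8, if_neg h9]
        simp
      · have h8 : cg a b y y = 0 := by
          have : cg a b y (-a - x - y) = 0 := by
            have h12 : (-a - x - y : F) = -a - y - x := by ring
            rw [h12, cg_third, cg_comm]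
            exact hcg x y hx1 hy1 hxy
          rwa [h6] at this
        have h9 : cg a b x x ≠ 0 := by
          intro h10
          have h11 := cg_two (a := a) (b := b) (x := x) (y := x) (z := y) h10
            (hcg x y hx1 hy1 hxy) hxy
          apply hxy
          linear_combination h6 + h11
        rw [if_neg h9, if_pos h8]
        simp
    rw [h7, h0] at key
    omega
  · have hne : rt a b c u ≠ ∅ := by
      intro h
      rw [h, card_empty] at h0
      omega
    rw [if_neg hne]
    obtain ⟨x, y, z, hxy, hxz, hyz, hx⟩ := card_eq_three.1 h0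
    have hx1 : cu a b c x = u := (hmem x).1 (by simp [hx])
    have hy1 : cu a b c y = u := (hmem y).1 (by simp [hx])
    have hz1 : cu a b c z = u := (hmem z).1 (by simp [hx])
    have h7 : ((rt a b c u).filter fun x => cg a b x x = 0) = ∅ := by
      rw [filter_eq_empty_iff]
      intro w hw h8
      have hgen : ∀ x y z : F, cu a b c x = u → cu a b c y = u → cu a b c z = u → x ≠ y → x ≠ z →
          y ≠ z → cg a b x x ≠ 0 := by
        intro x y z hx hy hz hxy hxz hyz h9
        have e1 := cg_two h9 (hcg x y hx hy hxy) hxy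
        have e2 := cg_two h9 (hcg x z hx hz hxz) hxz
        apply hyz
        linear_combination e1 - e2
      rw [hx, mem_insert, mem_insert, mem_singleton] at hw
      rcases hw with rfl | rfl | rfl
      · exact hgen _ _ _ hx1 hy1 hz1 hxy hxz hyz h8
      · exact hgen _ _ _ hy1 hx1 hz1 hxy.symm hyz hxz h8
      · exact hgen _ _ _ hz1 hx1 hy1 hxz.symm hyz.symm hxy h8
    rw [h7, card_empty, h0] at key
    omega

/-- three times the number of the values which are not taken is the number of points of the conic -/
theorem card_missing (h3 : (3 : F) ≠ 0) {a b : F} (hab : a ^ 2 ≠ 3 * b) (c : F) :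
    3 * (univ.filter fun u : F => rt a b c u = ∅).card =
      (univ.filter fun z : F × F => cg a b z.1 z.2 = 0).card := by
  have h1 : ∑ u : F, ((cn a b c u).card + 3) =
      ∑ u : F, (3 * (rt a b c u).card + if rt a b c u = ∅ then 3 else 0) :=
    sum_congr rfl fun u _ => card_cn_eq h3 hab c u
  rw [sum_add_distrib, sum_add_distrib, ← mul_sum] at h1
  have h2 : ∑ u : F, (cn a b c u).card =
      (univ.filter fun z : F × F => cg a b z.1 z.2 = 0).card := by
    rw [card_eq_sum_card_fiberwise (f := fun z : F × F => cu a b c z.1) (t := univ)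
      (fun _ _ => mem_coe.2 (mem_univ _))]
    refine sum_congr rfl fun u _ => ?_
    congr 1
    ext z
    simp [cn, and_comm]
  have h4 : ∑ u : F, (rt a b c u).card = Fintype.card F := by
    rw [← card_univ, card_eq_sum_card_fiberwise (f := fun x : F => cu a b c x) (t := univ)
      (fun _ _ => mem_coe.2 (mem_univ _))]
    rfl
  rw [h2, h4, sum_const, card_univ, smul_eq_mul, ← sum_filter, sum_const, smul_eq_mul] at h1
  omega

/-- the hyperbola -/
theorem card_hyp (h2 : (2 : F) ≠ 0) {c : F} (hc : c ≠ 0) :
    (univ.filter fun z : F × F => z.2 ^ 2 = z.1 ^ 2 - c).card + 1 = Fintype.card F := by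
  have h : (univ.filter fun z : F × F => z.2 ^ 2 = z.1 ^ 2 - c).card =
      (univ.filter fun s : F => s ≠ 0).card := by
    refine card_bij' (fun z _ => z.1 - z.2) (fun s _ => ((s + c / s) / 2, (c / s - s) / 2)) ?_ ?_
      ?_ ?_
    · intro z hz
      rw [mem_filter] at hz ⊢
      refine ⟨mem_univ _, fun h0 => hc ?_⟩
      have : (z.1 - z.2) * (z.1 + z.2) = c := by linear_combination -hz.2
      rw [← this, h0, zero_mul]
    · intro s hs
      rw [mem_filter] at hs ⊢
      refine ⟨mem_univ _, ?_⟩
      have hs0 := hs.2
      field_simp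
      ring
    · intro z hz
      rw [mem_filter] at hz
      have h1 : (z.1 - z.2) * (z.1 + z.2) = c := by linear_combination -hz.2
      have h0 : z.1 - z.2 ≠ 0 := by
        intro h0
        rw [h0, zero_mul] at h1
        exact hc h1.symm
      have h3 : c / (z.1 - z.2) = z.1 + z.2 := by
        rw [div_eq_iff h0, ← h1]
        ring
      ext
      · simp only [h3]
        field_simp
        ring
      · simp only [h3]
        field_simp
        ring
    · intro s hs
      rw [mem_filter] at hs
      have hs0 := hs.2
      simp only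
      field_simp
      ring
  rw [h, filter_ne', card_erase_of_mem (mem_univ _), card_univ]
  have := Fintype.card_pos (α := F)
  omega

theorem sum_char_sq (h2 : (2 : F) ≠ 0) (hF : ringChar F ≠ 2) {c : F} (hc : c ≠ 0) :
    ∑ x : F, quadraticChar F (x ^ 2 - c) = -1 := by
  have h1 := card_hyp h2 hc
  have h3 : ((univ.filter fun z : F × F => z.2 ^ 2 = z.1 ^ 2 - c).card : ℤ) =
      ∑ x : F, (quadraticChar F (x ^ 2 - c) + 1) := by
    rw [card_eq_sum_card_fiberwise (f := fun z : F × F => z.1) (t := univ)
      (fun _ _ => mem_coe.2 (mem_univ _))]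
    push_cast
    refine sum_congr rfl fun x _ => ?_
    rw [← quadraticChar_card_sqrts hF (x ^ 2 - c)]
    norm_cast
    refine card_bij' (fun z _ => z.2) (fun y _ => (x, y)) ?_ ?_ ?_ ?_
    · rintro ⟨x', y⟩ hz
      simp only [mem_filter, mem_univ, true_and] at hz
      obtain ⟨hz, rfl⟩ := hz
      simp [hz]
    · intro y hy
      simp only [Set.mem_toFinset, Set.mem_ofPred_eq] at hy
      simp [hy]
    · rintro ⟨x', y⟩ hz
      simp only [mem_filter, mem_univ, true_and] at hz
      obtain ⟨hz, rfl⟩ := hz
      rfl
    · intro y hy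
      rfl
  rw [sum_add_distrib, sum_const, card_univ, nsmul_eq_mul, mul_one] at h3
  have h4 : ((univ.filter fun z : F × F => z.2 ^ 2 = z.1 ^ 2 - c).card : ℤ) + 1 =
      Fintype.card F := by exact_mod_cast h1
  linarith

/-- the number of points of the conic -/
theorem card_conic (h2 : (2 : F) ≠ 0) (h3 : (3 : F) ≠ 0) {a b : F} (hab : a ^ 2 ≠ 3 * b) :
    ((univ.filter fun z : F × F => cg a b z.1 z.2 = 0).card : ℤ) =
      Fintype.card F - quadraticChar F (-3) := by
  have hF : ringChar F ≠ 2 := by
    intro h
    apply h2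
    have := CharP.cast_eq_zero F (ringChar F)
    rw [h] at this
    exact_mod_cast this
  have hc : 4 * (a ^ 2 - 3 * b) / 9 ≠ 0 := by
    have h4 : (4 : F) ≠ 0 := by
      have : (4 : F) = 2 * 2 := by norm_num
      rw [this]
      exact mul_ne_zero h2 h2
    have h9 : (9 : F) ≠ 0 := by
      have : (9 : F) = 3 * 3 := by norm_num
      rw [this]
      exact mul_ne_zero h3 h3
    exact div_ne_zero (mul_ne_zero h4 (sub_ne_zero.2 hab)) h9
  have h5 : ((univ.filter fun z : F × F => cg a b z.1 z.2 = 0).card : ℤ) =
      ∑ x : F, (quadraticChar F (-3 * ((x + a / 3) ^ 2 - 4 * (a ^ 2 - 3 * b) / 9)) + 1) := by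
    rw [card_eq_sum_card_fiberwise (f := fun z : F × F => z.1) (t := univ)
      (fun _ _ => mem_coe.2 (mem_univ _))]
    push_cast
    refine sum_congr rfl fun x _ => ?_
    rw [← quadraticChar_card_sqrts hF (-3 * ((x + a / 3) ^ 2 - 4 * (a ^ 2 - 3 * b) / 9))]
    norm_cast
    have h9 : (9 : F) ≠ 0 := by
      have : (9 : F) = 3 * 3 := by norm_num
      rw [this]
      exact mul_ne_zero h3 h3
    have hd : (-3 * ((x + a / 3) ^ 2 - 4 * (a ^ 2 - 3 * b) / 9)) =
        -3 * x ^ 2 - 2 * a * x + a ^ 2 - 4 * b := by
      field_simp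
      ring
    refine card_bij' (fun z _ => 2 * z.2 + x + a) (fun w _ => (x, (w - x - a) / 2)) ?_ ?_ ?_ ?_
    · rintro ⟨x', y⟩ hz
      simp only [mem_filter, mem_univ, true_and] at hz
      obtain ⟨hz, rfl⟩ := hz
      simp only [Set.mem_toFinset, Set.mem_ofPred_eq]
      rw [hd]
      unfold cg at hz
      linear_combination 4 * hz
    · intro w hw
      simp only [Set.mem_toFinset, Set.mem_ofPred_eq] at hw
      simp only [mem_filter, mem_univ, true_and, and_true]
      rw [hd] at hw
      have h4 : (4 : F) ≠ 0 := by
        have : (4 : F) = 2 * 2 := by norm_num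
        rw [this]
        exact mul_ne_zero h2 h2
      apply mul_left_cancel₀ h4
      unfold cg
      have e : 4 * (x ^ 2 + x * ((w - x - a) / 2) + ((w - x - a) / 2) ^ 2 +
          a * (x + (w - x - a) / 2) + b) = w ^ 2 - (-3 * x ^ 2 - 2 * a * x + a ^ 2 - 4 * b) := by
        field_simp
        ring
      rw [e, hw]
      ring
    · rintro ⟨x', y⟩ hz
      simp only [mem_filter, mem_univ, true_and] at hz
      obtain ⟨hz, rfl⟩ := hz
      ext
      · rfl
      · simp only
        field_simp
        ring
    · intro w hw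
      simp only
      field_simp
      ring
  rw [h5, sum_add_distrib, sum_const, card_univ, nsmul_eq_mul, mul_one]
  have h6 : ∑ x : F, quadraticChar F (-3 * ((x + a / 3) ^ 2 - 4 * (a ^ 2 - 3 * b) / 9)) =
      quadraticChar F (-3) * ∑ x : F, quadraticChar F (x ^ 2 - 4 * (a ^ 2 - 3 * b) / 9) := by
    rw [mul_sum]
    refine Fintype.sum_equiv (Equiv.addRight (a / 3)) _ _ fun x => ?_
    rw [map_mul]
    rfl
  rw [h6, sum_char_sq h2 hF hc]
  ring

theorem card_missing_bound (h2 : (2 : F) ≠ 0) (h3 : (3 : F) ≠ 0) {a b : F} (hab : a ^ 2 ≠ 3 * b)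
    (c : F) : |3 * ((univ.filter fun u : F => rt a b c u = ∅).card : ℤ) - Fintype.card F| ≤ 1 := by
  have h4 := card_missing h3 hab c
  have h5 := card_conic h2 h3 hab
  rw [← h4] at h5
  push_cast at h5
  rw [h5]
  have h6 : (-3 : F) ≠ 0 := neg_ne_zero.2 h3
  rcases quadraticChar_dichotomy h6 with h | h <;> rw [h] <;> norm_num

end Pool.Agent.TH943.PT
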