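import Mathlib.FieldTheory.Finite.Extension
import Mathlib.FieldTheory.PrimitiveElement
import Mathlib.FieldTheory.Perfect
import Mathlib.Algebra.Polynomial.SpecificDegree
import Mathlib.Data.Set.Card.Arithmetic
import Pool.Agent.TH943.PT.Cub

/-!
The elements of a finite extension of a finite field and their minimal polynomials.
-/

set_option autoImplicit false
set_option maxHeartbeats 1000000

open Polynomial

namespace Pool.Agent.TH943.PT

section

variable {k : Type} [Field k] [Finite k] {L : Type} [Field L] [Algebra k L] [Finite L]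

omit [Finite k] in
theorem finrank_ne {N : ℕ} (hN : Module.finrank k L = N) : N ≠ 0 := by
  have : Module.Finite k L := Module.Finite.of_finite
  rw [← hN]
  exact (Module.finrank_pos (R := k) (M := L)).ne'

/-- the number of the elements with a given minimal polynomial -/
theorem ncard_minpoly {N : ℕ} (hN : Module.finrank k L = N) {P : k[X]} (hm : P.Monic)
    (hi : Irreducible P) (hd : P.natDegree ∣ N) :
    {u : L | minpoly k u = P}.ncard = P.natDegree := by
  classical
  have : Module.Finite k L := Module.Finite.of_finite
  have hset : {u : L | minpoly k u = P} = P.rootSet L := by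
    ext u
    rw [Set.mem_ofPred_eq, mem_rootSet]
    constructor
    · rintro rfl
      exact ⟨hi.ne_zero, minpoly.aeval _ _⟩
    · rintro ⟨_, h⟩
      exact (minpoly.eq_of_irreducible_of_monic hi h hm).symm
  rw [hset, ← Nat.card_coe_set_eq, Nat.card_eq_fintype_card]
  apply card_rootSet_eq_natDegree (PerfectField.separable_of_irreducible hi)
  have h1 := (hi.natDegree_dvd_iff_dvd_X_pow_card_pow_sub_X (n := N)).1 hd
  have hcard : Nat.card L = Nat.card k ^ N := by
    rw [← hN]
    exact Module.natCard_eq_pow_finrank
  have h2 : Splits (((X ^ (Nat.card k ^ N) - X : k[X])).map (algebraMap k L)) := by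
    have := Fintype.ofFinite L
    have h3 := FiniteField.isSplittingField_sub L k
    rw [Fintype.card_eq_nat_card, hcard] at h3
    exact h3.splits
  refine Splits.of_dvd h2 ?_ (Polynomial.map_dvd _ h1)
  rw [Polynomial.map_ne_zero_iff (algebraMap k L).injective]
  exact FiniteField.X_pow_card_pow_sub_X_ne_zero _ (finrank_ne hN) Finite.one_lt_card

omit [Finite k] in
theorem natDegree_dvd {N : ℕ} (hN : Module.finrank k L = N) (u : L) :
    (minpoly k u).natDegree ∣ N := by
  have : Module.Finite k L := Module.Finite.of_finite
  rw [← hN]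
  exact minpoly.degree_dvd (Algebra.IsIntegral.isIntegral u)

/-- the number of the elements of small degree -/
theorem ncard_small {N : ℕ} (hN : Module.finrank k L = N) :
    {u : L | (minpoly k u).natDegree ≠ N}.ncard ≤ ∑ d ∈ N.properDivisors, Nat.card k ^ d := by
  classical
  have : Module.Finite k L := Module.Finite.of_finite
  have hsub : {u : L | (minpoly k u).natDegree ≠ N} ⊆
      ⋃ d ∈ N.properDivisors, ((X ^ (Nat.card k ^ d) - X : k[X]).rootSet L) := by
    intro u hu
    rw [Set.mem_ofPred_eq] at hu
    rw [Set.mem_iUnion₂]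
    have hint : IsIntegral k u := Algebra.IsIntegral.isIntegral u
    have hd := natDegree_dvd hN u
    refine ⟨(minpoly k u).natDegree, Nat.mem_properDivisors.2 ⟨hd, ?_⟩, ?_⟩
    · exact lt_of_le_of_ne (Nat.le_of_dvd (Nat.pos_of_ne_zero (finrank_ne hN)) hd) hu
    · rw [mem_rootSet]
      refine ⟨FiniteField.X_pow_card_pow_sub_X_ne_zero _ (minpoly.natDegree_pos hint).ne'
        Finite.one_lt_card, ?_⟩
      have h1 := ((minpoly.irreducible hint).natDegree_dvd_iff_dvd_X_pow_card_pow_sub_X
        (n := (minpoly k u).natDegree)).1 dvd_rfl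
      obtain ⟨v, hv⟩ := h1
      rw [hv, map_mul, minpoly.aeval, zero_mul]
  refine (Set.ncard_le_ncard hsub (Set.toFinite _)).trans ?_
  refine (Finset.set_ncard_biUnion_le N.properDivisors _).trans ?_
  refine Finset.sum_le_sum fun d hd => ?_
  have hd0 : d ≠ 0 := by
    rintro rfl
    have := (Nat.mem_properDivisors.1 hd).1
    exact finrank_ne hN (zero_dvd_iff.1 this)
  rw [rootSet_def, Set.ncard_coe_finset]
  refine (Multiset.toFinset_card_le _).trans ?_
  refine (card_roots' _).trans ?_
  refine natDegree_map_le.trans ?_
  rw [FiniteField.X_pow_card_pow_sub_X_natDegree_eq _ hd0 Finite.one_lt_card]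

omit [Finite k] in
/-- the composition is irreducible when the value is not taken -/
theorem irreducible_comp_iff {N : ℕ} (hN : Module.finrank k L = N) {f : k[X]} (hf : f.Monic)
    (hf3 : f.natDegree = 3) {u : L} (hu : (minpoly k u).natDegree = N) :
    Irreducible ((minpoly k u).comp f) ↔ ∀ x : L, aeval x f ≠ u := by
  have : Module.Finite k L := Module.Finite.of_finite
  have hint : ∀ x : L, IsIntegral k x := fun x => Algebra.IsIntegral.isIntegral x
  constructor
  · rintro hi x rfl
    have h1 : aeval x ((minpoly k (aeval x f)).comp f) = 0 := by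
      rw [aeval_comp, minpoly.aeval]
    have h2 : ((minpoly k (aeval x f)).comp f) = minpoly k x :=
      minpoly.eq_of_irreducible_of_monic hi h1 ((minpoly.monic (hint _)).comp hf (by omega))
    have h3 := congrArg natDegree h2
    rw [natDegree_comp, hu, hf3] at h3
    have h4 := Nat.le_of_dvd (Nat.pos_of_ne_zero (finrank_ne hN)) (natDegree_dvd hN x)
    have h5 := Nat.pos_of_ne_zero (finrank_ne hN)
    omega
  · intro h
    refine irreducible_comp (minpoly.monic (hint u)) hf (minpoly.irreducible (hint u)) ?_
    intro E _ _ x hx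
    set g : (IntermediateField.adjoin k {x})[X] := f.map (algebraMap k _) -
      C (IntermediateField.AdjoinSimple.gen k x) with hg
    have hgm : g.natDegree = 3 := by
      rw [hg, natDegree_sub_C, natDegree_map, hf3]
    have hxint : IsIntegral k x := by
      by_contra hc
      rw [minpoly.eq_zero hc] at hx
      exact (minpoly.ne_zero (hint u)) hx.symm
    rw [Polynomial.irreducible_iff_roots_eq_zero_of_degree_le_three (by omega) (by omega)]
    by_contra hc
    obtain ⟨y, hy⟩ := Multiset.exists_mem_of_ne_zero hc
    have hy0 := isRoot_of_mem_roots hy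
    rw [IsRoot, hg, eval_sub, eval_C, sub_eq_zero] at hy0
    have hy1 : aeval y f = IntermediateField.AdjoinSimple.gen k x := by
      rw [← hy0, ← eval_map_algebraMap]
    let φ : IntermediateField.adjoin k {x} →ₐ[k] L :=
      (IntermediateField.adjoin.powerBasis hxint).lift u (by
        rw [IntermediateField.adjoin.powerBasis_gen, IntermediateField.minpoly_gen, hx,
          minpoly.aeval])
    have hφ : φ (IntermediateField.AdjoinSimple.gen k x) = u := by
      have := (IntermediateField.adjoin.powerBasis hxint).lift_gen u (by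
        rw [IntermediateField.adjoin.powerBasis_gen, IntermediateField.minpoly_gen, hx,
          minpoly.aeval])
      exact (congrArg φ (IntermediateField.adjoin.powerBasis_gen hxint).symm).trans this
    apply h (φ y)
    rw [aeval_algHom_apply, hy1, hφ]

/-- the count of the monic irreducible polynomials with a property that is seen on the elements -/
theorem count {N : ℕ} (hN : Module.finrank k L = N) (R : k[X] → Prop) :
    N * {P : {P : k[X] // P.Monic ∧ Irreducible P} | P.1.natDegree = N ∧ R P.1}.ncard =
      {u : L | (minpoly k u).natDegree = N ∧ R (minpoly k u)}.ncard := by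
  classical
  have : Module.Finite k L := Module.Finite.of_finite
  have hint : ∀ x : L, IsIntegral k x := fun x => Algebra.IsIntegral.isIntegral x
  set S : Set {P : k[X] // P.Monic ∧ Irreducible P} := {P | P.1.natDegree = N ∧ R P.1} with hS
  set U : Set L := {u : L | (minpoly k u).natDegree = N ∧ R (minpoly k u)} with hU
  let g : L → {P : k[X] // P.Monic ∧ Irreducible P} := fun u =>
    ⟨minpoly k u, minpoly.monic (hint u), minpoly.irreducible (hint u)⟩
  have hfib : ∀ P ∈ S, {u : L | g u = P}.ncard = N := by
    intro P hP
    have h1 := ncard_minpoly hN P.2.1 P.2.2 (by rw [hP.1])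
    rw [hP.1] at h1
    rw [← h1]
    congr 1
    ext u
    simp only [Set.mem_ofPred_eq, g]
    rw [Subtype.ext_iff]
  have hN0 := finrank_ne hN
  have hSfin : S.Finite := by
    have : S ⊆ Set.range g := by
      intro P hP
      have h1 := hfib P hP
      have h2 : {u : L | g u = P}.Nonempty := by
        apply Set.nonempty_of_ncard_ne_zero
        rw [h1]
        exact hN0
      obtain ⟨u, hu⟩ := h2
      exact ⟨u, hu⟩
    exact (Set.finite_range g).subset this
  have hUS : U = ⋃ P ∈ hSfin.toFinset, {u : L | g u = P} := by
    ext u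
    rw [Set.mem_iUnion₂]
    constructor
    · intro hu
      exact ⟨g u, hSfin.mem_toFinset.2 hu, rfl⟩
    · rintro ⟨P, hP, hu⟩
      rw [hSfin.mem_toFinset] at hP
      rw [Set.mem_ofPred_eq] at hu
      subst hu
      exact hP
  have h2 : U.ncard = ∑ P ∈ hSfin.toFinset, {u : L | g u = P}.ncard := by
    have := Fintype.ofFinite L
    rw [hUS]
    have h3 : (⋃ P ∈ hSfin.toFinset, {u : L | g u = P}) =
        ((hSfin.toFinset.biUnion fun P => (Finset.univ.filter fun u : L => g u = P) : Finset L) :
          Set L) := by
      ext u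
      simp
    rw [h3, Set.ncard_coe_finset, Finset.card_biUnion]
    · refine Finset.sum_congr rfl fun P _ => ?_
      rw [← Set.ncard_coe_finset]
      congr 1
      ext u
      simp
    · intro P _ P' _ hne
      show Disjoint (Finset.univ.filter fun u : L => g u = P)
        (Finset.univ.filter fun u : L => g u = P')
      rw [Finset.disjoint_left]
      intro u hu hu'
      rw [Finset.mem_filter] at hu hu'
      exact hne (hu.2.symm.trans hu'.2)
  rw [h2, Finset.sum_congr rfl (fun P hP => hfib P (hSfin.mem_toFinset.1 hP)), Finset.sum_const,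
    smul_eq_mul, mul_comm, Set.ncard_eq_toFinset_card _ hSfin]

omit [Finite k] [Finite L] in
theorem aeval_cubic {f : k[X]} (hf : f.Monic) (hf3 : f.natDegree = 3) (x : L) :
    aeval x f = cu (algebraMap k L (f.coeff 2)) (algebraMap k L (f.coeff 1))
      (algebraMap k L (f.coeff 0)) x := by
  rw [aeval_eq_sum_range, hf3]
  simp only [Finset.sum_range_succ, Finset.sum_range_zero, zero_add]
  have h3 : f.coeff 3 = 1 := by
    rw [← hf3]
    exact hf
  rw [h3]
  unfold cu
  simp only [Algebra.smul_def]
  rw [map_one]
  ring

end

/-- the number of the monic irreducible polynomials of degree `N` whose composition with a cubic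
polynomial is irreducible -/
theorem inert_count {k : Type} [Field k] [Finite k] (h2 : (2 : k) ≠ 0) (h3 : (3 : k) ≠ 0)
    {f : k[X]} (hf : f.Monic) (hf3 : f.natDegree = 3) (hab : f.coeff 2 ^ 2 ≠ 3 * f.coeff 1)
    {N : ℕ} (hN : 0 < N) :
    |3 * ((N * {P : {P : k[X] // P.Monic ∧ Irreducible P} | P.1.natDegree = N ∧
        Irreducible (P.1.comp f)}.ncard : ℕ) : ℤ) - (Nat.card k : ℤ) ^ N| ≤
      3 * ∑ d ∈ N.properDivisors, (Nat.card k : ℤ) ^ d + 1 := by
  classical
  obtain ⟨p, hp⟩ := CharP.exists k
  have : Fact (Nat.Prime p) := ⟨CharP.char_is_prime k p⟩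
  have : NeZero N := ⟨hN.ne'⟩
  let L := FiniteField.Extension k p N
  have hfin : Module.finrank k L = N := FiniteField.finrank_extension k p N
  have := Fintype.ofFinite L
  have hinj := (algebraMap k L).injective
  have h2' : (2 : L) ≠ 0 := by
    intro h
    apply h2
    apply hinj
    rw [map_ofNat, map_zero]
    exact h
  have h3' : (3 : L) ≠ 0 := by
    intro h
    apply h3
    apply hinj
    rw [map_ofNat, map_zero]
    exact h
  have hab' : (algebraMap k L (f.coeff 2)) ^ 2 ≠ 3 * algebraMap k L (f.coeff 1) := by
    intro h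
    apply hab
    apply hinj
    rw [map_pow, map_mul, map_ofNat]
    exact h
  have hb := card_missing_bound h2' h3' hab' (algebraMap k L (f.coeff 0))
  have hcard : (Fintype.card L : ℤ) = (Nat.card k : ℤ) ^ N := by
    rw [Fintype.card_eq_nat_card, FiniteField.natCard_extension]
    push_cast
    rfl
  rw [hcard] at hb
  set M : Finset L := Finset.univ.filter fun u : L => rt (algebraMap k L (f.coeff 2))
    (algebraMap k L (f.coeff 1)) (algebraMap k L (f.coeff 0)) u = ∅ with hM
  have hmem : ∀ u : L, u ∈ M ↔ ∀ x : L, aeval x f ≠ u := by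
    intro u
    rw [hM, Finset.mem_filter, rt, Finset.filter_eq_empty_iff]
    simp only [Finset.mem_univ, true_and, forall_true_left]
    refine forall_congr' fun x => ?_
    rw [aeval_cubic hf hf3 x]
  have hc := count hfin (fun P => Irreducible (P.comp f))
  have hU : {u : L | (minpoly k u).natDegree = N ∧ Irreducible ((minpoly k u).comp f)} =
      {u : L | (minpoly k u).natDegree = N ∧ u ∈ M} := by
    ext u
    simp only [Set.mem_ofPred_eq]
    refine and_congr_right fun h => ?_
    rw [irreducible_comp_iff hfin hf hf3 h, hmem]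
  rw [hU] at hc
  rw [hc]
  have hs := ncard_small (k := k) (L := L) hfin
  set U : Set L := {u : L | (minpoly k u).natDegree = N ∧ u ∈ M} with hUU
  have hUM : U ⊆ (M : Set L) := fun u hu => hu.2
  have hMU : (M : Set L) ⊆ U ∪ {u : L | (minpoly k u).natDegree ≠ N} := by
    intro u hu
    by_cases h : (minpoly k u).natDegree = N
    · exact Or.inl ⟨h, hu⟩
    · exact Or.inr h
  have h5 := Set.ncard_le_ncard hUM (Set.toFinite _)
  have h6 := Set.ncard_le_ncard hMU (Set.toFinite _)
  have h7 := Set.ncard_union_le U {u : L | (minpoly k u).natDegree ≠ N}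
  rw [Set.ncard_coe_finset] at h5 h6
  have h8 : M.card ≤ U.ncard + ∑ d ∈ N.properDivisors, Nat.card k ^ d := by omega
  have h9 : (M.card : ℤ) ≤ U.ncard + ∑ d ∈ N.properDivisors, (Nat.card k : ℤ) ^ d := by
    exact_mod_cast h8
  have h10 : (U.ncard : ℤ) ≤ M.card := by exact_mod_cast h5
  rw [abs_le] at hb ⊢
  constructor
  · linarith [hb.1]
  · have h11 : 0 ≤ ∑ d ∈ N.properDivisors, (Nat.card k : ℤ) ^ d :=
      Finset.sum_nonneg fun d _ => by positivity
    linarith [hb.2]

end Pool.Agent.TH943.PT
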