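import Pool.Agent.TH943.HJ.Fin
import Pool.Agent.TH943.PT.Orb

/-!
The order of vanishing for the twists of the Jacobian of `y ^ 2 = f(x) - t`.
-/

set_option autoImplicit false
set_option maxHeartbeats 1000000

open Polynomial

namespace Pool.Agent.TH943.PT

open Pool.Agent.W313.Hyp Pool.Agent.W343.BSD Pool.Agent.TH943.HJ

variable {k : Type} [Field k] [Finite k]

theorem sum_facs_le {g : k[X]} (hg : g ≠ 0) : ∑ R ∈ facs g, R.1.natDegree ≤ g.natDegree := by
  classical
  have h1 : (∏ R ∈ facs g, R.1) ∣ g := by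
    apply Finset.prod_dvd_of_coprime
    · intro R _ R' _ hne
      refine (Irreducible.coprime_iff_not_dvd R.2.2).2 fun hd => hne ?_
      exact Subtype.ext (eq_of_monic_of_associated R.2.1 R'.2.1
        (R.2.2.associated_of_dvd R'.2.2 hd))
    · intro R hR
      exact (mem_facs hg R).1 hR
  have h2 := natDegree_le_of_dvd h1 hg
  rwa [natDegree_prod_of_monic _ _ (fun R _ => R.2.1)] at h2

theorem sum_over_le {f : k[X]} (hf : 0 < f.natDegree) (P : MI k) :
    ∑ R ∈ facs (P.1.comp f), twoPart R.1.natDegree ≤ f.natDegree * twoPart P.1.natDegree := by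
  have h1 := sum_facs_le (comp_ne hf P)
  rw [Polynomial.natDegree_comp] at h1
  have h2 : ∀ R ∈ facs (P.1.comp f), P.1.natDegree * twoPart R.1.natDegree ≤
      R.1.natDegree * twoPart P.1.natDegree := by
    intro R hR
    rw [mem_facs (comp_ne hf P)] at hR
    obtain ⟨Q, hQ, rfl⟩ := down_surj R hR
    rw [down_deg Q hQ, twoPart_mul (MI.deg_pos P) (MI.deg_pos Q)]
    have h3 := twoPart_le (MI.deg_pos Q)
    calc P.1.natDegree * (twoPart P.1.natDegree * twoPart Q.1.natDegree) =
        (P.1.natDegree * twoPart P.1.natDegree) * twoPart Q.1.natDegree := by ring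
      _ ≤ (P.1.natDegree * twoPart P.1.natDegree) * Q.1.natDegree := Nat.mul_le_mul_left _ h3
      _ = _ := by ring
  have h4 := Finset.sum_le_sum h2
  rw [← Finset.mul_sum, ← Finset.sum_mul] at h4
  have h5 := MI.deg_pos P
  apply Nat.le_of_mul_le_mul_left _ h5
  calc _ ≤ _ := h4
    _ ≤ (P.1.natDegree * f.natDegree) * twoPart P.1.natDegree := Nat.mul_le_mul_right _ h1
    _ = _ := by ring

theorem twoPart_odd_mul {n m : ℕ} (hn : Odd n) (hm : 0 < m) : twoPart (m * n) = twoPart m := by
  rw [twoPart_mul hm hn.pos, twoPart_odd hn, mul_one]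

theorem sum_over_inert {f : k[X]} (hm : f.Monic) (hf : Odd f.natDegree) (P : MI k)
    (hP : Irreducible (P.1.comp f)) :
    ∑ R ∈ facs (P.1.comp f), twoPart R.1.natDegree = twoPart P.1.natDegree := by
  have hc : (P.1.comp f).Monic := P.2.1.comp hm hf.pos.ne'
  have h1 : facs (P.1.comp f) = {⟨P.1.comp f, hc, hP⟩} := by
    ext R
    rw [mem_facs hP.ne_zero, Finset.mem_singleton]
    constructor
    · intro h
      exact Subtype.ext (eq_of_monic_of_associated R.2.1 hc (R.2.2.associated_of_dvd hP h))
    · rintro rfl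
      exact dvd_rfl
  rw [h1, Finset.sum_singleton]
  show twoPart (P.1.comp f).natDegree = _
  rw [natDegree_comp, twoPart_odd_mul hf (MI.deg_pos P)]

open Classical in
/-- the order is bounded by the contribution of the primes which are not inert -/
theorem order_le (h2 : (2 : k) ≠ 0) {f D : k[X]} (hm : f.Monic) (hf : Odd f.natDegree)
    (hD : D ≠ 0) (m : ℕ) (G : ℤ[X])
    (hG : LF f D = (((1 - C (Nat.card k : ℤ) * X) ^ m * G : ℤ[X]) : PowerSeries ℤ)) :
    m ≤ (f.natDegree - 1) *
      ∑ P ∈ (primes D).filter (fun P => ¬ Irreducible (P.comp f)), twoPart P.natDegree := by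
  have h1 := order_bound (card_odd h2) hf.pos hD m G hG
  have h3 : ∑ P ∈ facs D, ∑ R ∈ facs (P.1.comp f), twoPart R.1.natDegree ≤
      ∑ P ∈ facs D, (twoPart P.1.natDegree + if ¬ Irreducible (P.1.comp f) then
        (f.natDegree - 1) * twoPart P.1.natDegree else 0) := by
    refine Finset.sum_le_sum fun P _ => ?_
    split_ifs with h
    · rw [sum_over_inert hm hf P h, add_zero]
    · have h4 := sum_over_le hf.pos P
      have h5 := hf.pos
      obtain ⟨e, he⟩ : ∃ e, f.natDegree = e + 1 := ⟨f.natDegree - 1, by omega⟩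
      rw [he] at h4 ⊢
      rw [Nat.add_sub_cancel]
      linarith
  rw [Finset.sum_add_distrib] at h3
  have h6 : ∑ P ∈ facs D, (if ¬ Irreducible (P.1.comp f) then
        (f.natDegree - 1) * twoPart P.1.natDegree else 0) =
      (f.natDegree - 1) * ∑ P ∈ (primes D).filter (fun P => ¬ Irreducible (P.comp f)),
        twoPart P.natDegree := by
    rw [sum_primes hD (fun P => if ¬ Irreducible (P.comp f) then
        (f.natDegree - 1) * twoPart P.natDegree else 0), ← Finset.sum_filter, Finset.mul_sum]
  rw [h6] at h3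
  omega

end Pool.Agent.TH943.PT
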