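import Mathlib.Algebra.Polynomial.Eval.Irreducible
import Mathlib.RingTheory.Polynomial.Dickson
import Mathlib.FieldTheory.KummerExtension
import Mathlib.FieldTheory.Finite.Extension
import Pool.Agent.TH943.PT.Orb

/-!
Dickson polynomials of prime degree over finite fields: the number of the values for which the
equation is irreducible.
-/

set_option autoImplicit false
set_option maxHeartbeats 1000000

open Polynomial

namespace Pool.Agent.TH943.PT

section gen

variable {F : Type} [Field F]

theorem dick_eval (y z : F) : ∀ n : ℕ, (dickson 1 (y * z) n).eval (y + z) = y ^ n + z ^ n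
  | 0 => by
    rw [dickson_zero]
    simp
    norm_num
  | 1 => by
    rw [dickson_one]
    simp
  | n + 2 => by
    rw [dickson_add_two, eval_sub, eval_mul, eval_mul, eval_X, eval_C, dick_eval y z (n + 1),
      dick_eval y z n]
    ring

theorem dick_spec (a : F) (n : ℕ) :
    (dickson 1 a (n + 1)).Monic ∧ (dickson 1 a (n + 1)).natDegree = n + 1 ∧
      (dickson 1 a (n + 2)).Monic ∧ (dickson 1 a (n + 2)).natDegree = n + 2 := by
  have step : ∀ m : ℕ, (dickson 1 a (m + 1)).Monic → (dickson 1 a (m + 1)).natDegree = m + 1 →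
      (dickson 1 a m).natDegree ≤ m →
      (dickson 1 a (m + 2)).Monic ∧ (dickson 1 a (m + 2)).natDegree = m + 2 := by
    intro m h1 h2 h3
    have h4 : (X * dickson 1 a (m + 1)).Monic := monic_X.mul h1
    have h5 : (X * dickson 1 a (m + 1)).natDegree = m + 2 := by
      rw [monic_X.natDegree_mul h1, natDegree_X, h2]
      ring
    have h6 : (C a * dickson 1 a m).natDegree < (X * dickson 1 a (m + 1)).natDegree := by
      rw [h5]
      have := natDegree_C_mul_le a (dickson 1 a m)
      omega
    have h7 : (C a * dickson 1 a m).degree < (X * dickson 1 a (m + 1)).degree :=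
      degree_lt_degree h6
    rw [dickson_add_two]
    exact ⟨h4.sub_of_left h7, by rw [natDegree_sub_eq_left_of_natDegree_lt h6, h5]⟩
  induction n with
  | zero =>
    have h1 : (dickson 1 a 1).Monic := by
      rw [dickson_one]
      exact monic_X
    have h2 : (dickson 1 a 1).natDegree = 1 := by rw [dickson_one, natDegree_X]
    have h3 : (dickson 1 a 0).natDegree ≤ 0 := by
      rw [dickson_zero]
      have : (3 - ((1 : ℕ) : F[X])) = C 2 := by
        rw [Nat.cast_one, show (C (2 : F) : F[X]) = 2 from map_ofNat C 2]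
        norm_num
      rw [this, natDegree_C]
    exact ⟨h1, h2, step 0 h1 h2 h3⟩
  | succ n ih =>
    obtain ⟨h1, h2, h3, h4⟩ := ih
    exact ⟨h3, h4, step (n + 1) h3 h4 h2.le⟩

theorem dick_monic (a : F) {n : ℕ} (hn : 0 < n) : (dickson 1 a n).Monic := by
  obtain ⟨m, rfl⟩ : ∃ m, n = m + 1 := ⟨n - 1, by omega⟩
  exact (dick_spec a m).1

theorem dick_natDegree (a : F) {n : ℕ} (hn : 0 < n) : (dickson 1 a n).natDegree = n := by
  obtain ⟨m, rfl⟩ : ∃ m, n = m + 1 := ⟨n - 1, by omega⟩
  exact (dick_spec a m).2.1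

/-- the equation is irreducible if `w` is not an `ℓ`-th power -/
theorem dick_irr {ℓ : ℕ} (hℓ : ℓ.Prime) (h2 : ℓ ≠ 2) (a w : F) (hw : w ≠ 0)
    (hr : ∀ b : F, b ^ ℓ ≠ w) : Irreducible (dickson 1 a ℓ - C (w + a ^ ℓ / w)) := by
  have hirr : Irreducible (X ^ ℓ - C w) := X_pow_sub_C_irreducible_of_prime hℓ hr
  have := Fact.mk hirr
  let E := AdjoinRoot (X ^ ℓ - C w)
  let y : E := AdjoinRoot.root (X ^ ℓ - C w)
  have hfin : Module.Finite F E := (monic_X_pow_sub_C w hℓ.ne_zero).finite_adjoinRoot
  have hy : y ^ ℓ = algebraMap F E w := by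
    have h := AdjoinRoot.eval₂_root (X ^ ℓ - C w)
    rw [eval₂_sub, eval₂_pow, eval₂_X, eval₂_C, sub_eq_zero] at h
    exact h
  have hw' : algebraMap F E w ≠ 0 := by
    rw [Ne, FaithfulSMul.algebraMap_eq_zero_iff]
    exact hw
  have hy0 : y ≠ 0 := by
    intro h
    rw [h, zero_pow hℓ.ne_zero] at hy
    exact hw' hy.symm
  have hrank : Module.finrank F E = ℓ := by
    rw [(AdjoinRoot.powerBasis hirr.ne_zero).finrank, AdjoinRoot.powerBasis_dim,
      natDegree_X_pow_sub_C]
  set x : E := y + algebraMap F E a / y with hx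
  have hmon : (dickson 1 a ℓ - C (w + a ^ ℓ / w)).Monic := by
    refine (dick_monic a hℓ.pos).sub_of_left ?_
    refine lt_of_le_of_lt degree_C_le ?_
    rw [← natDegree_pos_iff_degree_pos, dick_natDegree a hℓ.pos]
    exact hℓ.pos
  have hdeg : (dickson 1 a ℓ - C (w + a ^ ℓ / w)).natDegree = ℓ := by
    rw [natDegree_sub_C, dick_natDegree a hℓ.pos]
  have hroot : aeval x (dickson 1 a ℓ - C (w + a ^ ℓ / w)) = 0 := by
    rw [map_sub, aeval_C, aeval_def, ← eval_map, map_dickson]
    have h1 : y * (algebraMap F E a / y) = algebraMap F E a := mul_div_cancel₀ _ hy0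
    have h3 := dick_eval y (algebraMap F E a / y) ℓ
    rw [h1] at h3
    rw [h3, div_pow, hy, map_add, map_div₀, map_pow, sub_self]
  have hint : IsIntegral F x := Algebra.IsIntegral.isIntegral x
  have hdvd := minpoly.degree_dvd hint
  rw [hrank] at hdvd
  have h1 : (minpoly F x).natDegree ≠ 1 := by
    intro h1
    have h3 : x ∈ (algebraMap F E).range := minpoly.mem_range_of_degree_eq_one F x (by
      rw [degree_eq_natDegree (minpoly.ne_zero hint), h1]
      rfl)
    obtain ⟨x0, hx0⟩ := h3
    have h4 : aeval y (X ^ 2 - C x0 * X + C a : F[X]) = 0 := by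
      have h5 : algebraMap F E a / y * y = algebraMap F E a := div_mul_cancel₀ _ hy0
      rw [map_add, map_sub, map_mul, map_pow, aeval_X, aeval_C, aeval_C, hx0, hx]
      linear_combination -h5
    have h5 : (X ^ ℓ - C w) ∣ (X ^ 2 - C x0 * X + C a : F[X]) := by
      rw [← AdjoinRoot.mk_eq_zero, ← AdjoinRoot.aeval_eq]
      exact h4
    have h6 : (X ^ 2 - C x0 * X + C a : F[X]).natDegree = 2 := by
      compute_degree!
    have h7 : (X ^ 2 - C x0 * X + C a : F[X]) ≠ 0 := by
      intro h
      rw [h, natDegree_zero] at h6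
      exact absurd h6 (by norm_num)
    have h8 := natDegree_le_of_dvd h5 h7
    rw [natDegree_X_pow_sub_C, h6] at h8
    have := hℓ.two_le
    omega
  have h3 : (minpoly F x).natDegree = ℓ := (hℓ.eq_one_or_self_of_dvd _ hdvd).resolve_left h1
  have h4 : minpoly F x = dickson 1 a ℓ - C (w + a ^ ℓ / w) := by
    have h5 := minpoly.dvd F x hroot
    refine (eq_of_monic_of_dvd_of_natDegree_le (minpoly.monic hint) hmon h5 ?_).symm
    rw [hdeg, h3]
  rw [← h4]
  exact minpoly.irreducible hint

end gen

section powers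

variable {F : Type} [Field F] [DecidableEq F]

/-- the elements of `A'` that are not `ℓ`-th powers -/
theorem card_nonpowers {ℓ : ℕ} (hℓ : ℓ.Prime) {ζ : F} (hζ : IsPrimitiveRoot ζ ℓ) (A A' : Finset F)
    (h0 : (0 : F) ∉ A') (hA : ∀ b : F, b ^ ℓ ∈ A' → b ∈ A) [DecidablePred fun w => ∃ b : F, b ^ ℓ = w] :
    ℓ * A'.card ≤ ℓ * (A'.filter fun w => ¬ ∃ b : F, b ^ ℓ = w).card + A.card := by
  have h1 := Finset.card_filter_add_card_filter_not (s := A') (p := fun w => ∃ b : F, b ^ ℓ = w)
  set B := A'.filter fun w => ∃ b : F, b ^ ℓ = w with hB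
  have h2 : ℓ * B.card ≤ A.card := by
    have h3 : (B.biUnion fun w => (nthRoots ℓ w).toFinset) ⊆ A := by
      intro y hy
      rw [Finset.mem_biUnion] at hy
      obtain ⟨w, hw, hy⟩ := hy
      rw [Multiset.mem_toFinset, mem_nthRoots hℓ.pos] at hy
      apply hA
      rw [hy]
      exact (Finset.mem_filter.1 hw).1
    have h4 := Finset.card_le_card h3
    rw [Finset.card_biUnion] at h4
    · rw [Finset.sum_congr rfl (g := fun _ => ℓ), Finset.sum_const, smul_eq_mul, mul_comm] at h4
      · exact h4
      · intro w hw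
        obtain ⟨hw1, b, hb⟩ := Finset.mem_filter.1 hw
        have hw0 : w ≠ 0 := by
          rintro rfl
          exact h0 hw1
        rw [Multiset.toFinset_card_of_nodup (hζ.nthRoots_nodup hw0), hζ.card_nthRoots,
          if_pos ⟨b, hb⟩]
    · intro w _ w' _ hne
      show Disjoint (nthRoots ℓ w).toFinset (nthRoots ℓ w').toFinset
      rw [Finset.disjoint_left]
      intro y hy hy'
      rw [Multiset.mem_toFinset, mem_nthRoots hℓ.pos] at hy hy'
      exact hne (hy.symm.trans hy')
  have h5 : ℓ * A'.card = ℓ * B.card + ℓ * (A'.filter fun w => ¬ ∃ b : F, b ^ ℓ = w).card := by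
    rw [← h1, mul_add]
  omega

/-- the values with an irreducible equation -/
theorem card_irr {L : Type} [Field L] [Fintype L] [DecidableEq L] [Algebra L F] {ℓ : ℕ}
    (hℓ : ℓ.Prime) (h2 : ℓ ≠ 2) (a : L) (W : Finset F) (h0 : ∀ w ∈ W, w ≠ 0)
    (hW : ∀ w ∈ W, ¬ ∃ b : F, b ^ ℓ = w)
    (hu : ∀ w ∈ W, ∃ u : L, algebraMap L F u = w + algebraMap L F a ^ ℓ / w)
    [DecidablePred fun u : L => Irreducible (dickson 1 a ℓ - C u)] :
    W.card ≤ 2 * (Finset.univ.filter fun u : L => Irreducible (dickson 1 a ℓ - C u)).card := by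
  classical
  let g : F → L := fun w => if h : ∃ u : L, algebraMap L F u = w + algebraMap L F a ^ ℓ / w then
    h.choose else 0
  have hg : ∀ w ∈ W, algebraMap L F (g w) = w + algebraMap L F a ^ ℓ / w := by
    intro w hw
    have h := hu w hw
    show algebraMap L F (if h : ∃ u : L, algebraMap L F u = w + algebraMap L F a ^ ℓ / w then
      h.choose else 0) = _
    rw [dif_pos h]
    exact h.choose_spec
  have hmaps : ∀ w ∈ W, g w ∈ Finset.univ.filter fun u : L => Irreducible (dickson 1 a ℓ - C u) := by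
    intro w hw
    rw [Finset.mem_filter]
    refine ⟨Finset.mem_univ _, ?_⟩
    have h3 := dick_irr hℓ h2 (algebraMap L F a) w (h0 w hw) (fun b hb => hW w hw ⟨b, hb⟩)
    rw [← hg w hw] at h3
    have h4 : (dickson 1 (algebraMap L F a) ℓ - C (algebraMap L F (g w)) : F[X]) =
        (dickson 1 a ℓ - C (g w)).map (algebraMap L F) := by
      rw [Polynomial.map_sub, map_dickson, map_C]
    rw [h4] at h3
    have hmon : (dickson 1 a ℓ - C (g w)).Monic := by
      refine (dick_monic a hℓ.pos).sub_of_left ?_
      refine lt_of_le_of_lt degree_C_le ?_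
      rw [← natDegree_pos_iff_degree_pos, dick_natDegree a hℓ.pos]
      exact hℓ.pos
    exact Polynomial.Monic.irreducible_of_irreducible_map (algebraMap L F) _ hmon h3
  have h5 := Finset.card_le_mul_card_image_of_maps_to hmaps 2 (by
    intro u hu'
    have h6 : (W.filter fun w => g w = u) ⊆
        (X ^ 2 - C (algebraMap L F u) * X + C (algebraMap L F a ^ ℓ) : F[X]).roots.toFinset := by
      intro w hw
      obtain ⟨hw1, rfl⟩ := Finset.mem_filter.1 hw
      rw [Multiset.mem_toFinset, mem_roots', IsRoot]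
      constructor
      · intro h
        have h7 : (X ^ 2 - C (algebraMap L F (g w)) * X + C (algebraMap L F a ^ ℓ) : F[X]).natDegree
            = 2 := by compute_degree!
        rw [h, natDegree_zero] at h7
        exact absurd h7 (by norm_num)
      · have h8 := h0 w hw1
        simp only [eval_add, eval_sub, eval_mul, eval_pow, eval_X, eval_C]
        rw [hg w hw1]
        field_simp
        ring
    refine (Finset.card_le_card h6).trans ((Multiset.toFinset_card_le _).trans ?_)
    refine (card_roots' _).trans ?_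
    compute_degree!)
  exact h5

end powers

theorem fac {Q : ℕ} (h : 1 < Q) : Q ^ 2 - 1 = (Q - 1) * (Q + 1) := by
  obtain ⟨m, rfl⟩ : ∃ m, Q = m + 1 := ⟨Q - 1, by omega⟩
  simp only [Nat.add_sub_cancel]
  have : (m + 1) ^ 2 = m * (m + 1 + 1) + 1 := by ring
  omega

theorem exists_prim {F : Type} [Field F] [Finite F] {ℓ : ℕ} (hd : ℓ ∣ Nat.card F - 1) :
    ∃ ζ : F, IsPrimitiveRoot ζ ℓ := by
  classical
  have := Fintype.ofFinite F
  obtain ⟨g, hg⟩ := IsCyclic.exists_generator (α := Fˣ)
  have ho : orderOf g = Nat.card F - 1 := by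
    rw [orderOf_eq_card_of_forall_mem_zpowers hg, Nat.card_units]
  have hq : 1 < Nat.card F := Finite.one_lt_card
  obtain ⟨m, hm⟩ := hd
  have hm0 : m ≠ 0 := by
    rintro rfl
    omega
  have h1 : orderOf (g ^ m) = ℓ := by
    rw [orderOf_pow_of_dvd hm0 (by rw [ho, hm]; exact dvd_mul_left _ _), ho, hm,
      Nat.mul_div_cancel _ (Nat.pos_of_ne_zero hm0)]
  refine ⟨((g ^ m : Fˣ) : F), ?_⟩
  rw [← h1]
  exact (IsPrimitiveRoot.orderOf (g ^ m)).map_of_injective (f := Units.coeHom F) Units.val_injective

section norm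

variable {L F : Type} [Field L] [Field F] [Algebra L F] [Fintype L] [Fintype F]

omit [Fintype F] in
/-- the elements fixed by the Frobenius -/
theorem mem_range_of_pow [DecidableEq F] {x : F} (hx : x ^ Fintype.card L = x) :
    ∃ u : L, algebraMap L F u = x := by
  have hq : 1 < Fintype.card L := Fintype.one_lt_card
  have h1 : (Finset.univ.image (algebraMap L F)) ⊆ (X ^ Fintype.card L - X : F[X]).roots.toFinset := by
    intro y hy
    rw [Finset.mem_image] at hy
    obtain ⟨u, _, rfl⟩ := hy
    rw [Multiset.mem_toFinset, mem_roots', IsRoot]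
    refine ⟨FiniteField.X_pow_card_sub_X_ne_zero F hq, ?_⟩
    rw [eval_sub, eval_pow, eval_X, ← map_pow, FiniteField.pow_card, sub_self]
  have h2 : (X ^ Fintype.card L - X : F[X]).roots.toFinset.card ≤ Fintype.card L := by
    refine (Multiset.toFinset_card_le _).trans ((card_roots' _).trans ?_)
    rw [FiniteField.X_pow_card_sub_X_natDegree_eq F hq]
  have h3 : (Finset.univ.image (algebraMap L F)).card = Fintype.card L := by
    rw [Finset.card_image_of_injective _ (algebraMap L F).injective, Finset.card_univ]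
  have h4 := Finset.eq_of_subset_of_card_le h1 (by rw [h3]; exact h2)
  have h5 : x ∈ (X ^ Fintype.card L - X : F[X]).roots.toFinset := by
    rw [Multiset.mem_toFinset, mem_roots', IsRoot]
    refine ⟨FiniteField.X_pow_card_sub_X_ne_zero F hq, ?_⟩
    rw [eval_sub, eval_pow, eval_X, hx, sub_self]
  rw [← h4, Finset.mem_image] at h5
  obtain ⟨u, _, hu⟩ := h5
  exact ⟨u, hu⟩

/-- the number of the elements of given norm -/
theorem card_norm [DecidableEq F] [DecidableEq L]
    (hc : Fintype.card F = Fintype.card L ^ 2) {c : L} (hc0 : c ≠ 0) :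
    (Finset.univ.filter fun y : F => y ^ (Fintype.card L + 1) = algebraMap L F c).card =
      Fintype.card L + 1 := by
  set Q := Fintype.card L with hQ
  have hq : 1 < Q := Fintype.one_lt_card
  let fib : L → Finset F := fun c => Finset.univ.filter fun y : F => y ^ (Q + 1) = algebraMap L F c
  have hle : ∀ c : L, (fib c).card ≤ Q + 1 := by
    intro c
    have h1 : fib c ⊆ (nthRoots (Q + 1) (algebraMap L F c)).toFinset := by
      intro y hy
      rw [Multiset.mem_toFinset, mem_nthRoots (by omega)]
      exact (Finset.mem_filter.1 hy).2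
    exact (Finset.card_le_card h1).trans ((Multiset.toFinset_card_le _).trans (card_nthRoots _ _))
  have hsum : ∑ c ∈ Finset.univ.filter (fun c : L => c ≠ 0), (fib c).card = Q ^ 2 - 1 := by
    rw [← Finset.card_biUnion]
    · have : (Finset.univ.filter (fun c : L => c ≠ 0)).biUnion fib =
          Finset.univ.filter (fun y : F => y ≠ 0) := by
        ext y
        rw [Finset.mem_biUnion, Finset.mem_filter]
        constructor
        · rintro ⟨c, hc, hy⟩
          refine ⟨Finset.mem_univ _, ?_⟩
          rintro rfl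
          have h1 := (Finset.mem_filter.1 hy).2
          rw [zero_pow (by omega)] at h1
          exact (Finset.mem_filter.1 hc).2 ((FaithfulSMul.algebraMap_eq_zero_iff L F).1 h1.symm)
        · rintro ⟨_, hy⟩
          obtain ⟨c, hcy⟩ := mem_range_of_pow (L := L) (x := y ^ (Q + 1)) (by
            have h1 : y ^ (Q ^ 2) = y := by
              rw [← hc]
              exact FiniteField.pow_card y
            rw [← hQ, ← pow_mul, add_mul, one_mul, pow_add, ← sq, h1, pow_succ, mul_comm])
          refine ⟨c, Finset.mem_filter.2 ⟨Finset.mem_univ _, ?_⟩, Finset.mem_filter.2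
            ⟨Finset.mem_univ _, hcy.symm⟩⟩
          rintro rfl
          rw [map_zero] at hcy
          exact hy (pow_eq_zero_iff (by omega) |>.1 hcy.symm)
      rw [this, Finset.filter_ne', Finset.card_erase_of_mem (Finset.mem_univ _), Finset.card_univ,
        hc]
    · intro c _ c' _ hne
      show Disjoint (fib c) (fib c')
      rw [Finset.disjoint_left]
      intro y hy hy'
      have h1 := (Finset.mem_filter.1 hy).2
      have h2 := (Finset.mem_filter.1 hy').2
      exact hne ((algebraMap L F).injective (h1.symm.trans h2))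
  have hcard : (Finset.univ.filter (fun c : L => c ≠ 0)).card = Q - 1 := by
    rw [Finset.filter_ne', Finset.card_erase_of_mem (Finset.mem_univ _), Finset.card_univ]
  by_contra hne
  have hlt : (fib c).card < Q + 1 := lt_of_le_of_ne (hle c) hne
  have h1 : ∑ c ∈ Finset.univ.filter (fun c : L => c ≠ 0), (fib c).card <
      ∑ c ∈ Finset.univ.filter (fun c : L => c ≠ 0), (Q + 1) := by
    refine Finset.sum_lt_sum (fun c _ => hle c) ⟨c, ?_, hlt⟩
    rw [Finset.mem_filter]
    exact ⟨Finset.mem_univ _, hc0⟩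
  rw [hsum, Finset.sum_const, hcard, smul_eq_mul] at h1
  have h2 := fac hq
  omega

end norm

/-- the number of the values for which the Dickson equation of prime degree is irreducible -/
theorem irr_count {L : Type} [Field L] [Fintype L] [DecidableEq L] {ℓ : ℕ} (hℓ : ℓ.Prime)
    (h2 : ℓ ≠ 2) {a : L} (ha : a ≠ 0) (hd : ℓ ∣ Fintype.card L ^ 2 - 1)
    [DecidablePred fun u : L => Irreducible (dickson 1 a ℓ - C u)] :
    (ℓ - 1) * (Fintype.card L - 1) ≤
      2 * ℓ * (Finset.univ.filter fun u : L => Irreducible (dickson 1 a ℓ - C u)).card := by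
  classical
  set Q := Fintype.card L with hQ
  have hq : 1 < Q := Fintype.one_lt_card
  have hfac : Q ^ 2 - 1 = (Q - 1) * (Q + 1) := fac hq
  by_cases hdiv : ℓ ∣ Q - 1
  · obtain ⟨ζ, hζ⟩ := exists_prim (F := L) (ℓ := ℓ) (by
      rw [Nat.card_eq_fintype_card]
      exact hdiv)
    set A : Finset L := Finset.univ.filter fun y => y ≠ 0 with hA
    have hAc : A.card = Q - 1 := by
      rw [hA, Finset.filter_ne', Finset.card_erase_of_mem (Finset.mem_univ _), Finset.card_univ]
    have h1 := card_nonpowers hℓ hζ A A (by simp [hA]) (fun b hb => by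
      rw [hA, Finset.mem_filter] at hb ⊢
      refine ⟨Finset.mem_univ _, fun h => hb.2 ?_⟩
      rw [h, zero_pow hℓ.ne_zero])
    have h3 := card_irr (F := L) hℓ h2 a (A.filter fun w => ¬ ∃ b : L, b ^ ℓ = w)
      (fun w hw => (Finset.mem_filter.1 (Finset.mem_filter.1 hw).1).2)
      (fun w hw => (Finset.mem_filter.1 hw).2)
      (fun w _ => ⟨w + a ^ ℓ / w, rfl⟩)
    rw [hAc] at h1
    have h4 : ℓ * (A.filter fun w => ¬ ∃ b : L, b ^ ℓ = w).card ≤
        ℓ * (2 * (Finset.univ.filter fun u : L => Irreducible (dickson 1 a ℓ - C u)).card) :=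
      Nat.mul_le_mul_left _ h3
    have h5 : (ℓ - 1) * (Q - 1) + (Q - 1) = ℓ * (Q - 1) := by
      obtain ⟨m, rfl⟩ : ∃ m, ℓ = m + 1 := ⟨ℓ - 1, by have := hℓ.pos; omega⟩
      simp only [Nat.add_sub_cancel]
      ring
    have h6 : 2 * ℓ * (Finset.univ.filter fun u : L => Irreducible (dickson 1 a ℓ - C u)).card =
      ℓ * (2 * (Finset.univ.filter fun u : L => Irreducible (dickson 1 a ℓ - C u)).card) := by ring
    omega
  · have hdiv2 : ℓ ∣ Q + 1 := by
      rw [hfac] at hd
      exact (hℓ.dvd_mul.1 hd).resolve_left hdiv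
    obtain ⟨p, hp⟩ := CharP.exists L
    have : Fact (Nat.Prime p) := ⟨CharP.char_is_prime L p⟩
    let F := FiniteField.Extension L p 2
    have := Fintype.ofFinite F
    have hcF : Fintype.card F = Q ^ 2 := by
      rw [Fintype.card_eq_nat_card, FiniteField.natCard_extension, Nat.card_eq_fintype_card]
    obtain ⟨ζ, hζ⟩ := exists_prim (F := F) (ℓ := ℓ) (by
      rw [Nat.card_eq_fintype_card, hcF, hfac]
      exact hdiv2.mul_left _)
    set â : F := algebraMap L F a with hâ
    set A : Finset F := Finset.univ.filter fun y => y ^ (Q + 1) = algebraMap L F a with hA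
    set A' : Finset F := Finset.univ.filter fun y => y ^ (Q + 1) = algebraMap L F (a ^ ℓ) with hA'
    have hAc : A.card = Q + 1 := card_norm hcF ha
    have hAc' : A'.card = Q + 1 := card_norm hcF (pow_ne_zero ℓ ha)
    have h00 : (0 : F) ∉ A' := by
      rw [hA', Finset.mem_filter, zero_pow (by omega)]
      rintro ⟨_, h⟩
      exact pow_ne_zero ℓ ha ((FaithfulSMul.algebraMap_eq_zero_iff L F).1 h.symm)
    have hA0 : ∀ w ∈ A', w ≠ 0 := by
      rintro w hw rfl
      exact h00 hw
    have hpow : ∀ y : F, y ^ (Q ^ 2) = y := fun y => by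
      rw [← hcF]
      exact FiniteField.pow_card y
    have h1 := card_nonpowers hℓ hζ A A' h00 (fun b hb => by
      rw [hA', Finset.mem_filter] at hb
      rw [hA, Finset.mem_filter]
      refine ⟨Finset.mem_univ _, ?_⟩
      obtain ⟨c, hc⟩ := mem_range_of_pow (L := L) (x := b ^ (Q + 1)) (by
        rw [← hQ, ← pow_mul, add_mul, one_mul, pow_add, ← sq, hpow, pow_succ, mul_comm])
      rw [← hc]
      congr 1
      have h3 : c ^ ℓ = a ^ ℓ := by
        apply (algebraMap L F).injective
        rw [← hb.2, map_pow, hc, ← pow_mul, ← pow_mul, mul_comm]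
      -- the `ℓ`-th power map is injective
      have h4 : (c / a) ^ ℓ = 1 := by
        rw [div_pow, h3, div_self (pow_ne_zero ℓ ha)]
      have hca : c / a ≠ 0 := by
        intro h
        rw [h, zero_pow hℓ.ne_zero] at h4
        exact zero_ne_one h4
      have h5 : (c / a) ^ (Q - 1) = 1 := FiniteField.pow_card_sub_one_eq_one _ hca
      have h6 : orderOf (c / a) ∣ ℓ := orderOf_dvd_of_pow_eq_one h4
      have h7 : orderOf (c / a) ∣ Q - 1 := orderOf_dvd_of_pow_eq_one h5
      have h8 : orderOf (c / a) = 1 := by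
        rcases (Nat.dvd_prime hℓ).1 h6 with h | h
        · exact h
        · exact absurd (h ▸ h7) hdiv
      rw [orderOf_eq_one_iff, div_eq_one_iff_eq ha] at h8
      exact h8)
    have h3 := card_irr (F := F) hℓ h2 a (A'.filter fun w => ¬ ∃ b : F, b ^ ℓ = w)
      (fun w hw => hA0 w (Finset.mem_filter.1 hw).1)
      (fun w hw => (Finset.mem_filter.1 hw).2)
      (fun w hw => by
        have hw1 := (Finset.mem_filter.1 hw).1
        have hw0 := hA0 w hw1
        have hw2 : w ^ (Q + 1) = algebraMap L F (a ^ ℓ) := (Finset.mem_filter.1 hw1).2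
        have h9 : algebraMap L F a ^ ℓ / w = w ^ Q := by
          rw [← map_pow, ← hw2, pow_succ, mul_div_assoc, div_self hw0, mul_one]
        rw [h9]
        have hchar : (w + w ^ Q) ^ Q = w + w ^ Q := by
          have h10 : (w + w ^ Q) ^ Q = w ^ Q + (w ^ Q) ^ Q := by
            have : CharP F p := charP_of_injective_algebraMap (algebraMap L F).injective p
            obtain ⟨n, _, hn⟩ := FiniteField.card L p
            rw [hQ, hn]
            exact add_pow_char_pow w _ p n
          rw [h10, ← pow_mul, ← sq, hpow, add_comm]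
        exact mem_range_of_pow hchar)
    rw [hAc, hAc'] at h1
    have h4 : ℓ * (A'.filter fun w => ¬ ∃ b : F, b ^ ℓ = w).card ≤
        ℓ * (2 * (Finset.univ.filter fun u : L => Irreducible (dickson 1 a ℓ - C u)).card) :=
      Nat.mul_le_mul_left _ h3
    have h5 : (ℓ - 1) * (Q + 1) + (Q + 1) = ℓ * (Q + 1) := by
      obtain ⟨m, rfl⟩ : ∃ m, ℓ = m + 1 := ⟨ℓ - 1, by have := hℓ.pos; omega⟩
      simp only [Nat.add_sub_cancel]
      ring
    have h7 : (ℓ - 1) * (Q - 1) ≤ (ℓ - 1) * (Q + 1) := Nat.mul_le_mul_left _ (by omega)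
    have h6 : 2 * ℓ * (Finset.univ.filter fun u : L => Irreducible (dickson 1 a ℓ - C u)).card =
      ℓ * (2 * (Finset.univ.filter fun u : L => Irreducible (dickson 1 a ℓ - C u)).card) := by ring
    omega

end Pool.Agent.TH943.PT
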